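import Pool.Agent.H70.PW.Defs

/-!
# For every k an oracle with Σ_k in BQP and Δ_(k+2) not in PP: module targets
-/

set_option autoImplicit false

namespace Pool.Agent.H70.PW

open Finset Filter Pool.Agent.H6.NB Pool.Agent.H70.OQ

/-! ## Part A: functions of low degree -/

/-- LDC: closure properties of the functions of low degree. -/
def T_LDC : Prop := ∀ (X : Type) [Fintype X],
  (∀ (D : ℕ) (r : ℝ), Lo (X := X) D fun _ => r) ∧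
  (∀ (D D' : ℕ) (g : (X → Bool) → ℝ), D ≤ D' → Lo D g → Lo D' g) ∧
  (∀ (D : ℕ) (r : ℝ) (g : (X → Bool) → ℝ), Lo D g → Lo D fun b => r * g b) ∧
  (∀ (D : ℕ) (g g' : (X → Bool) → ℝ), Lo D g → Lo D g' → Lo D fun b => g b + g' b) ∧
  (∀ (D : ℕ) (ι : Type) (s : Finset ι) (g : ι → (X → Bool) → ℝ), (∀ i ∈ s, Lo D (g i)) →
    Lo D fun b => ∑ i ∈ s, g i b) ∧
  (∀ (D D' : ℕ) (g g' : (X → Bool) → ℝ), Lo D g → Lo D' g' → Lo (D + D') fun b => g b * g' b) ∧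
  (∀ (D : ℕ) (ι : Type) (s : Finset ι) (g : ι → (X → Bool) → ℝ), (∀ i ∈ s, Lo D (g i)) →
    Lo (s.card * D) fun b => ∏ i ∈ s, g i b)

/-- LDT: decision trees have low degree. -/
def T_LDT : Prop := ∀ (X : Type) [Fintype X] (T : Pool.Agent.H68.AC.DT X) (w : ℕ), T.depth ≤ w →
  Lo w fun b => bi (T.eval b)

/-- MKV: an inequality of Markov. -/
def T_MKV : Prop := ∀ (D : ℕ) (p : Polynomial ℝ), p.natDegree ≤ D →
  (∀ x : ℝ, |x| ≤ 1 → |p.eval x| ≤ 1) → ∀ x : ℝ, |x| ≤ 1 → |p.derivative.eval x| ≤ 2 * D ^ 2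

/-- GRW: a polynomial with one positive value and many nonpositive values has a large value. -/
def T_GRW : Prop := ∀ (D l : ℕ) (p : Polynomial ℝ) (v : ℝ), p.natDegree ≤ D → 100 * D ^ 2 + 1 ≤ l →
  0 < v → v ≤ p.eval 0 → (∀ i : ℕ, 1 ≤ i → i ≤ l → p.eval (i : ℝ) ≤ 0) →
  ∃ i : ℕ, 1 ≤ i ∧ i ≤ l ∧ p.eval (i : ℝ) ≤ -(2 * v)

/-- SYP: symmetrization. -/
def T_SYP : Prop := ∀ (X : Type) [Fintype X] [DecidableEq X] (D : ℕ) (g : (X → Bool) → ℝ)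
  (b0 : X → Bool) (R : Finset X), Lo D g → (∀ x ∈ R, b0 x = true) →
  ∃ p : Polynomial ℝ, p.natDegree ≤ D ∧ ∀ i ≤ R.card,
    ∑ I ∈ powersetCard i R, g (spc b0 I) = R.card.choose i * p.eval (i : ℝ)

/-- STP: one step of the chain. -/
def T_STP : Prop := ∀ (X : Type) [Fintype X] [DecidableEq X] (D : ℕ) (g : (X → Bool) → ℝ)
  (b0 : X → Bool) (R : Finset X) (v : ℝ), Lo D g → 100 * D ^ 2 + 1 ≤ R.card →
  (∀ x ∈ R, b0 x = true) → 0 < v → v ≤ g b0 → (∀ I ⊆ R, I.Nonempty → g (spc b0 I) ≤ 0) →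
  ∃ I ⊆ R, I.Nonempty ∧ g (spc b0 I) ≤ -(2 * v)

/-- CHN: a function of low degree with the right signs is somewhere very large. -/
def T_CHN : Prop := ∀ (X : Type) [Fintype X] [DecidableEq X] (D J : ℕ) (g : (X → Bool) → ℝ)
  (R : ℕ → Bool → Finset X), Lo D g → 1 ≤ J → (∀ j < J, ∀ c, 100 * D ^ 2 + 1 ≤ (R j c).card) →
  (∀ j < J, ∀ j' < J, ∀ c c' x, x ∈ R j c → x ∈ R j' c' → j = j') →
  (∀ j < J, ∀ c b, Tp R j c b → 1 / 2 ≤ (if c then g b else -g b)) →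
  ∃ b, (∀ x, b x = false → ∃ j < J, ∃ c, x ∈ R j c) ∧ (2 : ℝ) ^ J / 4 ≤ |g b|

/-! ## Part B: Fourier coefficients -/

/-- DTK: the Fourier coefficients of a decision tree. -/
def T_DTK : Prop := ∀ (V : Type) [Fintype V] [DecidableEq V] (T : Pool.Agent.H68.AC.DT V) (w k : ℕ),
  T.depth ≤ w → L1k k (fun y => bi (T.eval y)) ≤ (w : ℝ) ^ k

/-- L1K: the level `k` of the Fourier spectrum of a formula. -/
def T_L1K : Prop := ∀ (V : Type) [Fintype V] [DecidableEq V] (S d w k : ℕ) (f : (V → Bool) → Bool),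
  1 ≤ w → Cl V S (d + 1) f → L1k k (fun y => bi (f y)) ≤
    (128 * (w : ℝ)) ^ (k * (d + 1)) *
      ((w : ℝ) ^ k + (Fintype.card V : ℝ) ^ k * ((S : ℝ) + 1) ^ (d + 1) / 2 ^ w)

/-! ## Part C: differences of the two distributions -/

/-- NUC: the conditioned distributions. -/
def T_NUC : Prop := ∀ (b : Bool) (q N : ℕ), er q N < 1 →
  (∀ P, 0 ≤ nuc b q N P) ∧ ∑ P, nuc b q N P = 1 ∧ (∀ P, nuc b q N P ≠ 0 → DecA q N b P) ∧
  ∑ P, |nuc b q N P - ∏ i, mu b q (P i)| ≤ 2 * er q N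

/-- TEN: bounds for products of functionals. -/
def T_TEN : Prop := ∀ (ι : Type) [Fintype ι] [DecidableEq ι] (T : ι → Type) [∀ s, Fintype (T s)]
  (d : ∀ s, T s → ℝ) (C : ∀ s, (T s → ℝ) → Prop) (η : ι → ℝ) (g : (∀ s, T s) → ℝ) (M : ℝ),
  (∀ s, 0 ≤ η s) → 0 ≤ M →
  (∀ s (F : T s → ℝ) (M : ℝ), 0 ≤ M → (∀ τ, C s τ → |∑ p, τ p * F p| ≤ M) →
    |∑ p, d s p * F p| ≤ η s * M) →
  (∀ τ : ∀ s, T s → ℝ, (∀ s, C s (τ s)) → |∑ P, (∏ s, τ s (P s)) * g P| ≤ M) →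
  |∑ P, (∏ s, d s (P s)) * g P| ≤ (∏ s, η s) * M

/-- SIN: one instance. -/
def T_SIN : Prop := ∀ (q N : ℕ) (B : ℝ) (F : (Fin N → VV q → Bool) → ℝ) (M : ℝ), 10 ≤ q →
  er q N < 1 → 1 ≤ B → 0 ≤ M → (∀ τ, Tau q N B τ → |∑ P, τ P * F P| ≤ M) →
  |∑ P, (nuc true q N P - nuc false q N P) * F P| ≤ etaB B q N * M

/-- TAP: products of the test functionals. -/
def T_TAP : Prop := ∀ (ι : Type) [Fintype ι] [DecidableEq ι] (q N : ι → ℕ) (B : ℝ)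
  (f : (∀ s, Fin (N s) → VV (q s) → Bool) → Bool), 1 ≤ B →
  (∀ (j : ℕ) (π : ∀ s, (VV (q s) → Bool) → Fin (N s) → VV (q s) → Bool), j ≤ 2 * Fintype.card ι →
    (∀ s i v, Cl (VV (q s)) 0 0 fun y => π s y i v) →
    L1k j (fun y : (Σ s, VV (q s)) → Bool => bi (f fun s => π s fun v => y ⟨s, v⟩)) ≤ B ^ j) →
  ∀ τ : ∀ s, (Fin (N s) → VV (q s) → Bool) → ℝ, (∀ s, Tau (q s) (N s) B (τ s)) →
    |∑ P, (∏ s, τ s (P s)) * bi (f P)| ≤ 1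

/-- MXB: several instances. -/
def T_MXB : Prop := ∀ (ι : Type) [Fintype ι] [DecidableEq ι] (q N : ι → ℕ) (B : ℝ)
  (f : (∀ s, Fin (N s) → VV (q s) → Bool) → Bool), 1 ≤ B → (∀ s, 10 ≤ q s) →
  (∀ s, er (q s) (N s) < 1) →
  (∀ (j : ℕ) (π : ∀ s, (VV (q s) → Bool) → Fin (N s) → VV (q s) → Bool), j ≤ 2 * Fintype.card ι →
    (∀ s i v, Cl (VV (q s)) 0 0 fun y => π s y i v) →
    L1k j (fun y : (Σ s, VV (q s)) → Bool => bi (f fun s => π s fun v => y ⟨s, v⟩)) ≤ B ^ j) →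
  |∑ P : (∀ s, Fin (N s) → VV (q s) → Bool), (∏ s, (nuc true (q s) (N s) (P s) -
    nuc false (q s) (N s) (P s))) * bi (f P)| ≤ ∏ s, etaB B (q s) (N s)

/-! ## Part D: the expansion -/

/-- CPI: an algebraic identity. -/
def T_CPI : Prop := ∀ (m L : ℕ) (z d : Fin m → ℝ), 1 ≤ L →
  ∏ s, (z s + d s) = (∑ I ∈ univ.filter (fun I : Finset (Fin m) => I.card < L),
      (∏ s ∈ I, d s) * ∏ s ∈ Iᶜ, z s) +
    ∑ I ∈ powersetCard L univ, (∏ s ∈ I, d s) *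
      ∏ s ∈ Iᶜ, (if ∃ s' ∈ I, s' < s then z s else z s + d s)

/-- CAP: the expansion up to the order `L`. -/
def T_CAP : Prop := ∀ (Ω : Type) [Fintype Ω] [DecidableEq Ω] (T : Ω → Type) [∀ s, Fintype (T s)]
  [∀ s, DecidableEq (T s)] (lev : Ω → ℕ) (θ : (∀ s, T s) → Ω → Bool) (m : Bool → ∀ s, T s → ℝ)
  (F : (∀ s, T s) → ℝ) (η : Ω → ℝ) (L : ℕ) (M : ℝ), 1 ≤ L → 0 ≤ M → (∀ s, 0 ≤ η s) →
  (∀ b s p, 0 ≤ m b s p) → (∀ b s, ∑ p, m b s p = 1) →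
  (∀ P P' s, (∀ s', lev s' < lev s → P s' = P' s') → θ P s = θ P' s) →
  (∀ (I : Finset Ω) P, I.card = L → |∑ P' : ∀ s : {s // s ∈ I}, T s.1,
    (∏ s : {s // s ∈ I}, (m true s.1 (P' s) - m false s.1 (P' s))) *
      ((∏ s ∈ I, bi (θ (mixG I P P') s)) * F (mixG I P P'))| ≤ (∏ s ∈ I, η s) * M) →
  |∑ P, (∏ s, m (θ P s) s (P s)) * F P -
    ∑ I ∈ univ.filter (fun I : Finset Ω => I.card < L), ∑ P,
      ((∏ s ∈ I, (m true s (P s) - m false s (P s))) * ∏ s ∈ Iᶜ, m false s (P s)) *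
        ((∏ s ∈ I, bi (θ P s)) * F P)| ≤ (∑ I ∈ powersetCard L univ, ∏ s ∈ I, η s) * M

/-- CLX: the functions of the expansion are in the class `Cl`. -/
def T_CLX : Prop := ∀ (B Ω : Type) [Fintype Ω] [DecidableEq Ω] (nn qb : Ω → ℕ)
  (D : Ω → (PosG B Ω nn qb → Bool) → Bool) (lev : Ω → ℕ) (S t d h S' : ℕ) (I : Finset Ω)
  (G : (PosG B Ω nn qb → Bool) → Bool) (T : B → Bool) (e : Ω → Bool) (P : Blk nn qb)
  (π : ∀ s : {s // s ∈ I}, (VV (qb s.1) → Bool) → Fin (nn s.1) → VV (qb s.1) → Bool),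
  Syg D lev S t d h → 2 ≤ S' → S ≤ S' → 2 ^ t ≤ S' → I.card + 1 ≤ S' → Fm S t d G →
  (∀ s i v, Cl (VV (qb s.1)) 0 0 fun y => π s y i v) →
  Cl (Σ s : {s // s ∈ I}, VV (qb s.1)) S' (d + 4) fun y =>
    decide (G (vlG T e (mixG I P fun s => π s fun v => y ⟨s, v⟩)) = true ∧
      ∀ s ∈ I, thG (accG D (mixG I P fun s => π s fun v => y ⟨s, v⟩)) T e s = true)

/-- REM: the terms of order `L` are small. -/
def T_REM : Prop := ∀ (B Ω ρ : Type) [Fintype Ω] [DecidableEq Ω] [Fintype ρ] [Nonempty ρ]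
  (nn qb : Ω → ℕ) (D : Ω → (PosG B Ω nn qb → Bool) → Bool)
  (f : ρ → (PosG B Ω nn qb → Bool) → Bool) (lev : Ω → ℕ) (S t d h S' L : ℕ) (Bd : ℝ)
  (I : Finset Ω) (T : B → Bool) (e : Ω → Bool) (P : Blk nn qb), Syg D lev S t d h →
  (∀ r, Fm S t d (f r)) → 1 ≤ S → 2 ≤ S' → S ≤ S' → 2 ^ t ≤ S' → L + 1 ≤ S' → 1 ≤ Bd →
  (∀ s, 10 ≤ qb s) → (∀ s, er (qb s) (nn s) < 1) → Fou qb S' (d + 4) L Bd → I.card = L →
  |∑ P' : ∀ s : {s // s ∈ I}, Fin (nn s.1) → VV (qb s.1) → Bool,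
    (∏ s : {s // s ∈ I}, (nuc true (qb s.1) (nn s.1) (P' s) - nuc false (qb s.1) (nn s.1) (P' s))) *
      ((∏ s ∈ I, bi (thG (accG D (mixG I P P')) T e s)) * gap f (vlG T e (mixG I P P')))| ≤
    (∏ s ∈ I, etaB Bd (qb s) (nn s)) * (7 * Fintype.card ρ)

/-- EXQ: the expansion of the expected gap. -/
def T_EXQ : Prop := ∀ (B Ω ρ : Type) [Fintype Ω] [DecidableEq Ω] [Fintype ρ] [Nonempty ρ]
  (nn qb : Ω → ℕ) (D : Ω → (PosG B Ω nn qb → Bool) → Bool)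
  (f : ρ → (PosG B Ω nn qb → Bool) → Bool) (lev : Ω → ℕ) (S t d h S' L : ℕ) (Bd : ℝ)
  (T : B → Bool), Syg D lev S t d h →
  (∀ r, Fm S t d (f r)) → 1 ≤ S → 2 ≤ S' → S ≤ S' → 2 ^ t ≤ S' → 1 ≤ L → L + 1 ≤ S' → 1 ≤ Bd →
  (∀ s, 10 ≤ qb s) → (∀ s, er (qb s) (nn s) < 1) → Fou qb S' (d + 4) L Bd →
  |REx D f T - ∑ I ∈ univ.filter (fun I : Finset Ω => I.card < L), trm D f T I| ≤
    (∑ s, etaB Bd (qb s) (nn s)) ^ L * (7 * Fintype.card ρ)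

/-! ## Part E: the approximation by polynomials -/

/-- APP: the terms of the expansion are polynomials of low degree up to the error `Er`. -/
def T_APP : Prop := ∀ (X B Ω ρ : Type) [Fintype X] [Fintype Ω] [DecidableEq Ω] [Fintype ρ]
  [Nonempty ρ] (nn qb : Ω → ℕ) (D : Ω → (PosG B Ω nn qb → Bool) → Bool)
  (f : ρ → (PosG B Ω nn qb → Bool) → Bool) (w L : ℕ) (lx : X → Bool) (Tb : (X → Bool) → B → Bool),
  ∃ g : (X → Bool) → ℝ, Lo (L * w) g ∧ ∀ b : X → Bool, (∀ x, lx x = false → b x = true) →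
    |∑ I ∈ univ.filter (fun I : Finset Ω => I.card < L), trm D f (Tb b) I - g b| ≤
      Er w L lx Tb D f

/-- AVG: the average error. -/
def T_AVG : Prop := ∀ (W X B Ω ρ : Type) [Fintype W] [Fintype X] [Fintype Ω] [DecidableEq Ω]
  [Fintype ρ] (nn qb : Ω → ℕ) (D : Ω → (PosG B Ω nn qb → Bool) → Bool)
  (f : ρ → (PosG B Ω nn qb → Bool) → Bool) (lev : Ω → ℕ) (S t d h w L : ℕ) (β : ℝ) (ω : W → ℝ)
  (lx : W → X → Bool) (Tb : W → (X → Bool) → B → Bool), Syg D lev S t d h →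
  (∀ r, Fm S t d (f r)) → (∀ p, 0 ≤ ω p) → 0 ≤ β → Tbh ω lx Tb S t d w β →
  (∀ s, er (qb s) (nn s) < 1) →
  ∑ p, ω p * Er w L (lx p) (Tb p) D f ≤
    (2 * ((Fintype.card Ω : ℝ) + 1)) ^ L * ((L : ℝ) + Fintype.card ρ) * (3 * Fintype.card ρ) * β

open Classical in
/-- CON: there is a configuration for which the algorithm errs. -/
def T_CON : Prop := ∀ (W X B Ω ρ : Type) [Fintype W] [Fintype X] [DecidableEq X] [Fintype Ω]
  [DecidableEq Ω] [Fintype ρ] [Nonempty ρ] (nn qb : Ω → ℕ)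
  (D : Ω → (PosG B Ω nn qb → Bool) → Bool) (f : ρ → (PosG B Ω nn qb → Bool) → Bool) (lev : Ω → ℕ)
  (S t d h S' w L J : ℕ) (Bd β : ℝ) (ω : W → ℝ) (lx : W → X → Bool)
  (Tb : W → (X → Bool) → B → Bool) (Rx : ℕ → Bool → Finset X) (Lst : (X → Bool) → Prop),
  Syg D lev S t d h → (∀ r, Fm S t d (f r)) → (∀ p, 0 ≤ ω p) → ∑ p, ω p = 1 → 0 ≤ β →
  Tbh ω lx Tb S t d w β → 1 ≤ S → 2 ≤ S' → S ≤ S' → 2 ^ t ≤ S' → 1 ≤ L → L + 1 ≤ S' → 1 ≤ Bd →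
  (∀ s, 10 ≤ qb s) → (∀ s, er (qb s) (nn s) < 1) → Fou qb S' (d + 4) L Bd →
  (∑ s, etaB Bd (qb s) (nn s)) ^ L * (7 * Fintype.card ρ) ≤ 1 / 4 →
  (2 * ((Fintype.card Ω : ℝ) + 1)) ^ L * ((L : ℝ) + Fintype.card ρ) * (3 * Fintype.card ρ) * β ≤
    1 / 16 →
  14 * (Fintype.card ρ : ℝ) < 2 ^ J → 1 ≤ J →
  (∀ j < J, ∀ j' < J, ∀ c c' x, x ∈ Rx j c → x ∈ Rx j' c' → j = j') →
  ∑ p, ω p * ic (∃ j < J, ∃ c, ((Rx j c).filter fun x => lx p x = true).card <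
    100 * (L * w) ^ 2 + 1) ≤ 1 / 4 →
  (∀ j < J, ∀ c b, Tp Rx j c b → (Lst b ↔ c = true)) →
  ∃ (p : W) (b : X → Bool) (κ : Ω → Bool) (P : Blk nn qb),
    (∀ s, DecA (qb s) (nn s) (κ s) (P s)) ∧
    ¬ (Fintype.card ρ < 2 * (univ.filter fun r =>
      f r (vlG (Tb p b) (elG (accG D P) (Tb p b) κ h) P) = true).card ↔ Lst b)

/-! ## Part F: the table -/

/-- TBD: the table lemma for all rows together, induction over the depth. -/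
def T_TBD : Prop := ∀ (X : Type) (Y : ℕ → Type) [Fintype X] [DecidableEq X] [∀ i, Fintype (Y i)]
  [∀ i, DecidableEq (Y i)] [∀ i, Nonempty (Y i)] (S w G : ℕ) (q : ℝ), 1 ≤ w → 0 < q →
  64 * w * q ≤ 1 → ∀ k : ℕ,
  (∀ i < k, G * Fintype.card (Node X Y i) ≤ Fintype.card (Y i)) →
  ∀ (L : Node X Y k → Finset (Y k)) (f : (Node X Y (k + 1) → Bool) → Bool), Fm S w (k + 1) f →
  (∀ a, Fintype.card (Node X Y k) ≤ (L a).card) →
  ∑ H : Hid X Y k, ∑ h : Node X Y k → Y k, uw L h * ∑ l : X → Bool, lw q l *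
      ic (¬ Dx w l (fun b => sv b (k + 1) ((H, h) : Hid X Y (k + 1))) f) ≤
    errT X Y S w G q k * Fintype.card (Hid X Y k)

/-- TBE: the table lemma for all rows together. -/
def T_TBE : Prop := ∀ (X : Type) (Y : ℕ → Type) [Fintype X] [DecidableEq X] [∀ i, Fintype (Y i)]
  [∀ i, DecidableEq (Y i)] [∀ i, Nonempty (Y i)] (k S t w G : ℕ) (q : ℝ), 1 ≤ w → t ≤ w → 0 < q →
  64 * w * q ≤ 1 → 1 ≤ G →
  (∀ i ≤ k, G * Fintype.card (Node X Y i) ≤ Fintype.card (Y i)) →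
  ∀ f : (Node X Y (k + 1) → Bool) → Bool, Fm S t (k + 1) f →
  ∑ H : Hid X Y (k + 1), ∑ l : X → Bool, lw q l * ic (¬ Dx w l (fun b => sv b (k + 1) H) f) ≤
    errT X Y S w G q k * Fintype.card (Hid X Y (k + 1))

/-- HTC: the table lemma for the tables of the stage `n`. -/
def T_HTC : Prop := ∀ (n k S t w : ℕ), 1 ≤ w → t ≤ w →
  Tbh (fun p : Hid (Fin n → Bool) (Ys n) (k + 1) × ((Fin n → Bool) → Bool) =>
      lw (1 / (64 * (w : ℝ))) p.2 / Fintype.card (Hid (Fin n → Bool) (Ys n) (k + 1)))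
    (fun p => p.2) (fun p b => sv b (k + 1) p.1) S t (k + 1) w
    (errT (Fin n → Bool) (Ys n) S w (2 ^ n) (1 / (64 * (w : ℝ))) k)

/-- LVS: a random set contains many elements of a large set. -/
def T_LVS : Prop := ∀ (X : Type) [Fintype X] [DecidableEq X] (q : ℝ) (R : Finset X) (M G : ℕ),
  0 ≤ q → q ≤ 1 → G * M ≤ R.card →
  ∑ l : X → Bool, lw q l * ic ((R.filter fun x => l x = true).card < M) ≤ M * (1 - q) ^ G

/-! ## Part G: strings -/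

/-- LTR: the lexicographic order. -/
def T_LTR : Prop := (∀ u, ¬ Later u u) ∧ (∀ u v w, Later u v → Later v w → Later u w) ∧
  (∀ u v, u.length = v.length → u = v ∨ Later u v ∨ Later v u) ∧
  (∀ u v x y, Later u v → Later (u ++ x) (v ++ y)) ∧ ∀ u v x, Later u v ↔ Later (x ++ u) (x ++ v)

/-- BKS: the classes of rows. -/
def T_BKS : Prop := ∀ n p J : ℕ, p + 1 ≤ n → J ≤ 2 ^ p → ∃ R, Cls n J (2 ^ (n - p - 1)) R

/-- LSP: the last special row. -/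
def T_LSP : Prop := (∀ (K n : ℕ) (O : List Bool → Bool) (b : (Fin n → Bool) → Bool),
    (∀ x : Fin n → Bool, Special K O (List.ofFn x) ↔ b x = false) →
    (List.replicate n false ∈ lastlang K O ↔ LstB n b)) ∧
  ∀ (n J Q : ℕ) (R : ℕ → Bool → Finset (Fin n → Bool)), Cls n J Q R →
    (∀ j < J, ∀ j' < J, ∀ c c' x, x ∈ R j c → x ∈ R j' c' → j = j') ∧
    ∀ j < J, ∀ c b, Tp R j c b → (LstB n b ↔ c = true)

open Classical in
/-- BSR: binary search. -/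
def T_BSR : Prop := ∃ T : List Bool → DT, (∀ x, (T x).depth ≤ x.length ∧ (T x).Short x.length) ∧
  ∀ (K : ℕ) (O : List Bool → Bool) (x : List Bool), (x ∈ lastlang K O ↔
    (T x).eval (fun y => decide (y ∈ geqlang K O)) = true)

/-- GLM: the oracle of the binary search is in the level `k + 1`. -/
def T_GLM : Prop := ∀ k : ℕ, ∃ W : Machine (k + 1), ∀ O, W.lang O = geqlang k O

/-! ## Part H: parameters -/

/-- ERX: the error of the table lemma. -/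
def T_ERX : Prop := ∀ d : ℕ, ∀ᶠ n : ℕ in atTop, ∀ t w ρ : ℕ, 1 ≤ t → w ^ 3 ≤ 2 ^ n →
  2 * ρ + (t + 1) * (d + 2) + 10 * n + 10 * d + 20 ≤ w →
  errT (Fin n → Bool) (Ys n) (2 ^ t) w (2 ^ n) (1 / (64 * w)) d ≤ 1 / 4 ^ ρ

/-- PRP: the parameters of the stage. -/
def T_PRP : Prop := ∀ k C : ℕ, ∀ᶠ n : ℕ in atTop, ∃ (a t w S' J p G L : ℕ) (B : ℝ),
  Pst k (C * 2 ^ (n / 16) + 1) n a t w S' J p G L B

/-- FOL: the Fourier coefficients of the functions of the stage. -/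
def T_FOL : Prop := ∀ (k M n a t w S' J p G L : ℕ) (B : ℝ), Pst k M n a t w S' J p G L B →
  Fou (fun s : Om n (2 ^ a) => qs s.1) S' (k + 5) L B

/-! ## Part I: assembly -/

/-- SGP: one stage of the construction, for an algorithm with unbounded error; the machines have `k + 1`
quantifiers. -/
def T_SGP : Prop := ∀ (k C : ℕ), ∀ prog, Smallk (k + 1) prog →
  ∀ᶠ n : ℕ in atTop, ∀ R : PAlg, R.Small (C * 2 ^ (n / 16)) →
  ∀ σ₀ : List Bool → Bool, (∀ s, Dec σ₀ s) →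
  ∃ (σ : List Bool → Bool) (m : ℕ),
    (∀ w, w.length < n → σ w = σ₀ w) ∧ (∀ s, Dec σ s) ∧
    (∀ u : List Bool, u.length ≠ n → (Special (k + 1) σ u ↔ Special (k + 1) σ₀ u)) ∧
    ∀ σ' O, (∀ w, w.length ≤ m → σ' w = σ w) → Bldg (acck (k + 1) prog) σ' O →
      ¬ (R.Acc O ↔ List.replicate n false ∈ lastlang (k + 1) O)

/-- SGA: one stage of the construction, for a quantum algorithm; the machines have `k + 1` quantifiers. -/
def T_SGA : Prop := ∀ (k c C : ℕ) (ε : ℝ), 0 < ε → ∀ prog, Smallk (k + 1) prog →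
  ∀ᶠ n : ℕ in atTop, ∀ Q : QAlg, Q.Short (n ^ c + c) → (Q.T : ℝ) ≤ C * 2 ^ ((1 / 2 - ε) * n) →
  ∀ σ₀ : List Bool → Bool, (∀ s, Dec σ₀ s) →
  ∃ (σ : List Bool → Bool) (m : ℕ),
    (∀ w, w.length < n → σ w = σ₀ w) ∧ (∀ s, Dec σ s) ∧
    (∀ u : List Bool, u.length ≠ n → (Special (k + 1) σ u ↔ Special (k + 1) σ₀ u)) ∧
    (∃! u : List Bool, u.length = n ∧ Special (k + 1) σ u) ∧
    ∀ σ' O, (∀ w, w.length ≤ m → σ' w = σ w) → Bldg (acck (k + 1) prog) σ' O →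
      ¬ Correct Q O (hlang (k + 1) O) (List.replicate n false)

/-- LIM: the limit of the stages. -/
def T_LIM : Prop := ∀ (A : List Bool → (List Bool → Bool) → Prop) (ι : Type)
  (Z : ι → (List Bool → Bool) → Prop) (Bad : ℕ → ℕ → (List Bool → Bool) → Prop), LocA A →
  (∀ z, ∃ l : ℕ, ∀ σ σ' : List Bool → Bool, (∀ w, w.length ≤ l → σ w = σ' w) → Z z σ → Z z σ') →
  (∃ σ, ∀ z, Z z σ) →
  (∀ i, ∃ᶠ n in atTop, ∀ σ₀, (∀ z, Z z σ₀) → ∃ (σ : List Bool → Bool) (m : ℕ),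
    (∀ w, w.length < n → σ w = σ₀ w) ∧ (∀ z, Z z σ) ∧
    ∀ σ' O, (∀ w, w.length ≤ m → σ' w = σ w) → Bldg A σ' O → Bad i n O) →
  ∃ σ O, Bldg A σ O ∧ (∀ z, Z z σ) ∧ ∀ i m, ∃ n ≥ m, Bad i n O

end Pool.Agent.H70.PW
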