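import Pool.Agent.H70.OQ.SGG
import Pool.Agent.H70.PW.Targets

/-!
# One stage of the construction, for a quantum algorithm
-/

set_option autoImplicit false

namespace Pool.Agent.H70.PW.SGA

open Pool.Agent.H6.NB Pool.Agent.H70.OQ Pool.Agent.H70.PW Finset Filter Pool.Agent.H70.OQ.SGG

/-- The special strings of other lengths are unchanged. -/
theorem other_sd (hCLH : T_CLH) (hNST : T_NST) (hSPC : T_SPC) {k n a : ℕ}
    {σ₀ : List Bool → Bool} (T : Nn n k → Bool) {κ : Om n (2 ^ a) → Bool}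
    {P : Blk (fun s : Om n (2 ^ a) => ns s.1) fun s => qs s.1} (u : List Bool) (hu : u.length ≠ n) :
    Special k (sdg k n (2 ^ a) σ₀ T κ P) u ↔ Special k σ₀ u := by
  refine hSPC k _ _ u fun w hw => ?_
  exact sd_other hCLH hNST hu hw

/-- Exactly one string of length `n` is special. -/
theorem one_n (hCLH : T_CLH) (hNDV : T_NDV) {k n a : ℕ} {σ₀ : List Bool → Bool}
    {H : Hid (Fin n → Bool) (Ys n) k} {κ : Om n (2 ^ a) → Bool}
    {P : Blk (fun s : Om n (2 ^ a) => ns s.1) fun s => qs s.1} (x : Fin n → Bool) :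
    ∃! u : List Bool, u.length = n ∧ Special k (sdg k n (2 ^ a) σ₀ (tabU k H x) κ P) u := by
  refine ⟨List.ofFn x, ⟨by simp, (spec_n hCLH hNDV _ (by simp)).2 rfl⟩, fun u' hu' => ?_⟩
  exact (spec_n hCLH hNDV _ hu'.1).1 hu'.2

theorem sga (h1 : T_EXJ) (hTBL : T_TBL) (h2 : T_BBV) (h3 : T_PCG) (h4 : T_BLG) (h5 : T_BUG)
    (h7 : T_CLH) (hNST : T_NST) (h8 : T_COD) (h9 : T_LKG) (h10 : T_FMG) (hLAK : T_LAK) (h12 : T_FIS)
    (h13 : T_NUM) (h14 : T_PRG) (h15 : T_L12) (h16 : T_EXG) (h17 : T_MEG) (hNDV : T_NDV)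
    (hSPC : T_SPC) : T_SGA := by
  classical
  intro k c C ε hε prog hs
  have hA : LocA (acck (k + 1) prog) := hLAK (k + 1) prog hs
  obtain ⟨a, ha⟩ := h14 k c (4 * C) ε hε
  filter_upwards [ha] with n hn Q hQ hT σ₀ hσ
  obtain ⟨t, S', M, w', w0, w, r, K, δ, δm, hn2, hnc, hn1, hnt, hw01, htw0, hKw, herr, hPrm, hδm,
    hδ4, h2S, htS, hKM, hM1, hMS, hbig, hw1, hL, hfin⟩ := hn
  have : Finite (Om n (2 ^ a)) := h12.2.1 n (2 ^ a)
  let inst : Fintype (Om n (2 ^ a)) := Fintype.ofFinite _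
  obtain ⟨hcard, hsum⟩ := h12.2.2 n (2 ^ a)
  obtain ⟨O₀, h0⟩ := h4 _ hA σ₀
  obtain ⟨D, hSys, hD⟩ := h10 (k + 1) prog n a t O₀ hs hn2 hnt
  have hX : Fintype.card (Fin n → Bool) = 2 ^ n := by simp
  have hlen : ∀ s : Om n (2 ^ a), n ≤ s.1.length := fun s =>
    (Nat.le_self_pow (by norm_num) n).trans s.2.1
  have hq : (1 : ℝ) / 4 ≥ 2 / 2 ^ n ^ 2 := by
    have : (8 : ℝ) ≤ 2 ^ n ^ 2 := by
      calc (8 : ℝ) = 2 ^ 3 := by norm_num
        _ ≤ 2 ^ n ^ 2 := pow_le_pow_right₀ (by norm_num) (by nlinarith)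
    rw [ge_iff_le, div_le_div_iff₀ (by positivity) (by norm_num)]
    linarith
  have : Nonempty (Hid (Fin n → Bool) (Ys n) (k + 1)) := hid_nonempty (k + 1)
  -- the base of the induction
  have hw0 : (0 : ℝ) < w0 := by exact_mod_cast hw01
  have hbase : ∀ f : (Nn n (k + 1) → Bool) → Bool, Fm (2 ^ t) t (k + 1) f →
      ((univ.filter fun p : Hid (Fin n → Bool) (Ys n) (k + 1) => K 0 < (univ.filter fun x =>
        f (tabU (k + 1) p x) ≠ f (tabT (k + 1) p)).card).card : ℝ) ≤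
        δ 0 * Fintype.card (Hid (Fin n → Bool) (Ys n) (k + 1)) := by
    intro f hf
    have h := hTBL (Fin n → Bool) (Ys n) k (2 ^ t) t w0 (2 ^ n) (K 0) (1 / (64 * w0)) hw01 htw0
      (by positivity) (by rw [mul_one_div, div_self (by positivity)]) hKw Nat.one_le_two_pow
      (fun i _ => by
        have e1 : Fintype.card (Node (Fin n → Bool) (Ys n) i) = 2 ^ ((2 ^ (i + 1) - 1) * n) :=
          card_Nn n i
        rw [e1, Fintype.card_fun, Fintype.card_bool, Fintype.card_fin, ← pow_add]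
        refine Nat.pow_le_pow_right (by norm_num) (le_of_eq ?_)
        have : 1 ≤ 2 ^ (i + 1) := Nat.one_le_two_pow
        obtain ⟨m, hm⟩ : ∃ m, 2 ^ (i + 1) = m + 1 := ⟨2 ^ (i + 1) - 1, by omega⟩
        rw [hm]
        simp only [Nat.add_sub_cancel]
        ring) f hf
    refine h.trans ?_
    exact mul_le_mul_of_nonneg_right herr (by positivity)
  obtain ⟨H, κ, P, hTyp, hDec⟩ := h1 (Hid (Fin n → Bool) (Ys n) (k + 1)) (Fin n → Bool)
    (Nn n (k + 1)) (Om n (2 ^ a)) (fun s => ns s.1) (fun s => qs s.1) (fun p => tabT (k + 1) p)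
    (fun p => tabU (k + 1) p) D (fun s => lv n s.1) (2 ^ t) t (k + 1) a S' M w r K δ δm (2 ^ n - 1)
    hSys (by rw [hX]; exact hPrm) hbase hδm (by rw [hX]; exact Nat.one_le_two_pow) h2S htS htS hKM
    hMS (by rw [hX]; exact (Nat.mul_le_mul_right _ hcard).trans hbig)
    (fun s => by simp only [qs]; omega)
    (fun s f hf => by
      have e0 : (k + 1 + 5) * a + 2 = (k + 6) * a + 1 + 1 := by ring
      rw [e0] at hf
      have := h15 (VV (qs s.1)) S' ((k + 6) * a + 1) w' f hw1 hf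
      refine this.trans ?_
      have hc : (Fintype.card (VV (qs s.1)) : ℝ) = 2 * 2 ^ qs s.1 := by
        have : Fintype.card (VV (qs s.1)) = 2 * 2 ^ qs s.1 := by simp [VV]
        rw [this]; push_cast; rfl
      rw [hc]
      have h := hL (qs s.1) (by have := s.2.2; simp only [qs]; omega)
      have e1 : (k + 6) * a + 1 + 1 = (k + 6) * a + 2 := rfl
      rw [e1]
      linarith)
    (by
      have hδ0 : (0 : ℝ) ≤ δm := by
        by_contra hneg
        push Not at hneg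
        rcases Nat.eq_zero_or_pos a with ha0 | ha0
        · rw [ha0] at hn1
          have h3 : 1 ≤ 2 ^ (k + 2) := Nat.one_le_two_pow
          have h4 := Nat.mul_le_mul_right n h3
          simp only [pow_zero, pow_one] at hn1
          omega
        · have := hPrm.δ_nonneg 0
          have h3 := hδm 0 ha0
          linarith
      refine le_trans (mul_le_mul_of_nonneg_right (b := ((Fintype.card (Om n (2 ^ a)) : ℕ) : ℝ))
        (c := (2 : ℝ) ^ n ^ 2 ^ a) ?_ hδ0) hδ4
      exact_mod_cast hcard)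
    (by
      refine le_trans (sum_le_sum fun s _ => ?_) (hsum.trans hq)
      refine le_trans ?_ (h13 s.1).1
      refine mul_le_mul_of_nonneg_left ?_ (by positivity)
      refine div_le_div_of_nonneg_right ?_ (by positivity)
      rw [sub_add_cancel]
      exact pow_le_pow_right₀ (by norm_num) (hlen s))
    (by
      refine le_trans (sum_le_sum fun s _ => ?_) (hsum.trans hq)
      exact (h13 s.1).2)
  have hLvl := (h17 (Nn n (k + 1)) (Om n (2 ^ a)) (fun s => ns s.1)
    (fun s => qs s.1) D (fun s => lv n s.1) (2 ^ t) t (k + 1) a hSys P).1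
  obtain ⟨-, hun, -, -⟩ := h16 (Nn n (k + 1)) (Om n (2 ^ a)) (accG D P)
    (fun s => lv n s.1) a hLvl
  obtain ⟨O₁, hO₁⟩ := h4 _ hA (sdg (k + 1) n (2 ^ a) σ₀ (tabT (k + 1) H) κ P)
  have hOx := fun x => h4 _ hA (sdg (k + 1) n (2 ^ a) σ₀ (tabU (k + 1) H x) κ P)
  choose O hO using hOx
  have hf1 := fixed h7 h9 hA hn2 h0 hO₁ hD
  have hfx := fun x => fixed h7 h9 hA hn2 h0 (hO x) hD
  have e1 : (fun s : Om n (2 ^ a) => O₁ (key s.1)) = elG (accG D P) (tabT (k + 1) H) κ a :=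
    hun (tabT (k + 1) H) κ _ hf1
  have ex1 : ∀ x, (fun s : Om n (2 ^ a) => O x (key s.1)) = elG (accG D P) (tabU (k + 1) H x) κ a :=
    fun x => hun (tabU (k + 1) H x) κ _ (hfx x)
  have etht : thG (accG D P) (tabT (k + 1) H) (fun s : Om n (2 ^ a) => O₁ (key s.1)) = κ := by
    funext s
    have h := hf1 s
    change xor (O₁ (key s.1)) (accG D P s (tabT (k + 1) H) fun s => O₁ (key s.1)) = κ s
    generalize (accG D P s (tabT (k + 1) H) fun s => O₁ (key s.1)) = b at h ⊢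
    rw [h]
    cases b <;> cases κ s <;> rfl
  have hex : ∀ x, exG (accG D P) a (tabT (k + 1) H) (tabU (k + 1) H x)
      (fun s : Om n (2 ^ a) => O₁ (key s.1)) = fun s => O x (key s.1) := by
    intro x
    unfold exG
    rw [etht, ex1 x]
  have hK : ∀ s : Om n (2 ^ a), (univ.filter fun x => O x (key s.1) ≠ O₁ (key s.1)).card ≤ M := by
    intro s
    have ht := hTyp s (hSys.lt s)
    rw [← e1] at ht
    refine le_trans (le_of_eq ?_) (ht.trans (hKM _ (hSys.lt s)))
    congr 1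
    unfold dsG
    refine filter_congr fun x _ => ?_
    unfold dlG
    rw [hex x]
    simp only []
    cases O x (key s.1) <;> cases O₁ (key s.1) <;> simp
  -- a good row with a prescribed first bit
  have hgood : ∀ b : Bool, ∃ x : Fin n → Bool, (List.ofFn x).head? = some b ∧
      |Q.prob (O x) - Q.prob O₁| < 1 / 6 := by
    intro b
    obtain ⟨m, hm⟩ : ∃ m, n = m + 1 := ⟨n - 1, by omega⟩
    let f : (Fin m → Bool) → (Fin n → Bool) := fun y i =>
      (Fin.cons b y : Fin (m + 1) → Bool) (Fin.cast hm i)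
    have hf : Function.Injective f := by
      intro y y' h
      have h' : (Fin.cons b y : Fin (m + 1) → Bool) = Fin.cons b y' := by
        funext i
        have := congrFun h (Fin.cast hm.symm i)
        simpa [f] using this
      exact (Fin.cons_injective2 h').2
    have hhead : ∀ y, (List.ofFn (f y)).head? = some b := by
      intro y
      subst hm
      simp [f]
    obtain ⟨y, hy⟩ := h2 (Fin m → Bool) Q O₁ (fun y => O (f y)) M fun i w' hw' => by
      refine le_trans ?_ (few h9 hA hn2 h0 hO₁ hO hM1 hK w' ((hQ i w' hw').trans hnc))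
      rw [← card_map ⟨f, hf⟩]
      refine card_le_card fun x hx => ?_
      rw [Finset.mem_map] at hx
      obtain ⟨y, hy, rfl⟩ := hx
      rw [mem_filter] at hy ⊢
      exact ⟨mem_univ _, hy.2⟩
    refine ⟨f y, hhead y, lt_of_le_of_lt hy ?_⟩
    have hcm : (Fintype.card (Fin m → Bool) : ℝ) = 2 ^ m := by simp
    rw [hcm]
    have hs2 : √((M : ℝ) / 2 ^ m) ≤ 2 * √((M : ℝ) / 2 ^ n) := by
      rw [show (M : ℝ) / 2 ^ m = 2 * ((M : ℝ) / 2 ^ n) by rw [hm, pow_succ]; field_simp,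
        Real.sqrt_mul (by norm_num)]
      refine mul_le_mul_of_nonneg_right ?_ (Real.sqrt_nonneg _)
      rw [Real.sqrt_le_left (by norm_num)]
      norm_num
    have hT' : 4 * (Q.T : ℝ) * √((M : ℝ) / 2 ^ m) ≤
        4 * (C * 2 ^ ((1 / 2 - ε) * n)) * (2 * √((M : ℝ) / 2 ^ n)) :=
      mul_le_mul (mul_le_mul_of_nonneg_left hT (by norm_num)) hs2 (Real.sqrt_nonneg _)
        (by positivity)
    refine lt_of_le_of_lt hT' ?_
    push_cast at hfin
    nlinarith [hfin]
  obtain ⟨x₁, hb1, hx1⟩ := hgood true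
  obtain ⟨x₀, hb0, hx0⟩ := hgood false
  by_cases hc : Correct Q (O x₁) (hlang (k + 1) (O x₁)) (List.replicate n false)
  · refine ⟨sdg (k + 1) n (2 ^ a) σ₀ (tabU (k + 1) H x₀) κ P, n ^ 2 ^ a,
      fun w hw => short_eq h7 hNST h8 hn2 w hw,
      dec_all h7 h8 hσ hDec, other_sd h7 hNST hSPC _, one_n h7 hNDV x₀, fun σ' O' he hB hcor => ?_⟩
    have hcx := correct_congr h3 h5 hSPC hA hn1 hQ hnc (hO x₀) hB he hcor
    have p1 := hc.1 ((hlang_iff h7 hNDV hSPC (hO x₁)).2 hb1)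
    have p0 := hcx.2 (fun h => by
      have := (hlang_iff h7 hNDV hSPC (hO x₀)).1 h
      rw [hb0] at this
      simp at this)
    have q1 := abs_lt.1 hx1
    have q0 := abs_lt.1 hx0
    linarith [q1.1, q1.2, q0.1, q0.2]
  · exact ⟨sdg (k + 1) n (2 ^ a) σ₀ (tabU (k + 1) H x₁) κ P, n ^ 2 ^ a,
      fun w hw => short_eq h7 hNST h8 hn2 w hw,
      dec_all h7 h8 hσ hDec, other_sd h7 hNST hSPC _, one_n h7 hNDV x₁, fun σ' O' he hB hcor =>
        hc (correct_congr h3 h5 hSPC hA hn1 hQ hnc (hO x₁) hB he hcor)⟩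

end Pool.Agent.H70.PW.SGA
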