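import Pool.Agent.H70.PW.SGA

/-!
# One stage of the construction, for an algorithm with unbounded error
-/

set_option autoImplicit false

namespace Pool.Agent.H70.PW.SGP

open Pool.Agent.H6.NB Pool.Agent.H70.OQ Pool.Agent.H70.PW Finset Filter Pool.Agent.H70.OQ.SGG
open Pool.Agent.H70.PW.SGA

/-- A decision tree over an oracle as a decision tree over positions. -/
def cvt {C : Type} (cl : List Bool → C) : DT → Pool.Agent.H68.AC.DT C
  | .leaf b => .leaf b
  | .node w l r => .node (cl w) (cvt cl l) (cvt cl r)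

theorem cvt_eval {C : Type} (cl : List Bool → C) (y : C → Bool) (T : DT) :
    (cvt cl T).eval y = T.eval fun w => y (cl w) := by
  induction T with
  | leaf b => rfl
  | node w l r ihl ihr =>
    unfold cvt Pool.Agent.H68.AC.DT.eval DT.eval
    rw [ihl, ihr]
    cases y (cl w) <;> rfl

theorem cvt_depth {C : Type} (cl : List Bool → C) (T : DT) : (cvt cl T).depth = T.depth := by
  induction T with
  | leaf b => rfl
  | node w l r ihl ihr =>
    unfold cvt Pool.Agent.H68.AC.DT.depth DT.depth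
    rw [ihl, ihr]

theorem fm_up {V : Type} {S t : ℕ} (hS : 1 ≤ S) {f : (V → Bool) → Bool} (d : ℕ)
    (h : Fm S t 0 f) : Fm S t d f := by
  induction d with
  | zero => exact h
  | succ d ih => exact ⟨1, fun _ => f, fun _ => true, hS, fun _ => ih, fun y => by simp⟩

theorem short_mono {m m' : ℕ} (h : m ≤ m') (T : DT) (hT : T.Short m) : T.Short m' := by
  induction T with
  | leaf b => trivial
  | node w l r ihl ihr => exact ⟨hT.1.trans h, ihl hT.2.1, ihr hT.2.2⟩

theorem er_nonneg (q N : ℕ) : 0 ≤ er q N := by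
  unfold er
  have h1 : eps2 q ≤ 1 := by
    unfold eps2
    rw [div_le_one (by positivity)]
    have : (0 : ℝ) ≤ q := by positivity
    linarith
  have h2 : 0 ≤ 1 - eps2 q / 4 := by linarith
  have := pow_nonneg h2 N
  positivity

theorem lw_nonneg {A : Type} [Fintype A] {q : ℝ} (h0 : 0 ≤ q) (h1 : q ≤ 1) (l : A → Bool) :
    0 ≤ lw q l := by
  unfold lw
  refine prod_nonneg fun a _ => ?_
  split_ifs
  · exact h0
  · linarith

theorem ic_le_one (p : Prop) : ic p ≤ 1 := by
  unfold ic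
  split_ifs <;> norm_num

theorem ic_nonneg (p : Prop) : 0 ≤ ic p := by
  unfold ic
  split_ifs <;> norm_num

theorem ic_true {p : Prop} (h : p) : ic p = 1 := by
  unfold ic
  rw [if_pos h]

theorem ic_false {p : Prop} (h : ¬ p) : ic p = 0 := by
  unfold ic
  rw [if_neg h]

/-- The sum of the bounds of the instances. -/
theorem eta_sum (h12 : T_FIS) (h13 : T_NUM) {n a : ℕ} [Fintype (Om n (2 ^ a))] (hn : 3 ≤ n)
    {B : ℝ} (hB : B ^ 2 + 1 ≤ 2 ^ n ^ 2) :
    0 ≤ ∑ s : Om n (2 ^ a), etaB B (qs s.1) (ns s.1) ∧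
      ∑ s : Om n (2 ^ a), etaB B (qs s.1) (ns s.1) ≤ 1 / 4 := by
  constructor
  · refine sum_nonneg fun s _ => ?_
    unfold etaB
    have := er_nonneg (qs s.1) (ns s.1)
    positivity
  · have h1 : ∀ s : Om n (2 ^ a), etaB B (qs s.1) (ns s.1) ≤ 5 * (1 / 4) ^ s.1.length := by
      intro s
      have e1 := (h13 s.1).1
      have e2 := (h13 s.1).2
      unfold etaB er
      have e3 : (ns s.1 : ℝ) * ((B ^ 2 + 1) / √(2 ^ qs s.1)) ≤
          (ns s.1 : ℝ) * (2 ^ s.1.length / √(2 ^ qs s.1)) := by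
        refine mul_le_mul_of_nonneg_left ?_ (by positivity)
        refine div_le_div_of_nonneg_right ?_ (by positivity)
        exact hB.trans (pow_le_pow_right₀ (by norm_num) s.2.1)
      linarith
    refine (sum_le_sum fun s _ => h1 s).trans ?_
    rw [← mul_sum]
    have h2 := (h12.2.2 n (2 ^ a)).2
    have h3 : (512 : ℝ) ≤ 2 ^ n ^ 2 := by
      calc (512 : ℝ) = 2 ^ 9 := by norm_num
        _ ≤ 2 ^ n ^ 2 := pow_le_pow_right₀ (by norm_num) (by nlinarith)
    have h4 : (2 : ℝ) / 2 ^ n ^ 2 ≤ 1 / 256 := by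
      rw [div_le_div_iff₀ (by positivity) (by norm_num)]
      linarith
    linarith

/-- The union bound for the live rows. -/
theorem live_bound (hLVS : T_LVS) {n J Q G : ℕ} {q : ℝ} (h0 : 0 ≤ q) (h1 : q ≤ 1)
    {Rx : ℕ → Bool → Finset (Fin n → Bool)}
    (hR : ∀ j < J, ∀ c, G * Q ≤ (Rx j c).card) :
    ∑ l : (Fin n → Bool) → Bool, lw q l * ic (∃ j < J, ∃ c,
      ((Rx j c).filter fun x => l x = true).card < Q) ≤ 2 * J * (Q * (1 - q) ^ G) := by
  classical
  have hle : ∀ l : (Fin n → Bool) → Bool, ic (∃ j < J, ∃ c,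
      ((Rx j c).filter fun x => l x = true).card < Q) ≤
      ∑ j ∈ range J, ∑ c : Bool, ic (((Rx j c).filter fun x => l x = true).card < Q) := by
    intro l
    by_cases h : ∃ j < J, ∃ c, ((Rx j c).filter fun x => l x = true).card < Q
    · rw [ic_true h]
      obtain ⟨j, hj, c, hc⟩ := h
      have e1 : ic (((Rx j c).filter fun x => l x = true).card < Q) ≤
          ∑ c : Bool, ic (((Rx j c).filter fun x => l x = true).card < Q) :=
        single_le_sum (f := fun c : Bool => ic (((Rx j c).filter fun x => l x = true).card < Q))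
          (fun c _ => ic_nonneg _) (mem_univ c)
      have e2 : ∑ c : Bool, ic (((Rx j c).filter fun x => l x = true).card < Q) ≤
          ∑ j ∈ range J, ∑ c : Bool, ic (((Rx j c).filter fun x => l x = true).card < Q) :=
        single_le_sum (f := fun j => ∑ c : Bool,
            ic (((Rx j c).filter fun x => l x = true).card < Q))
          (fun j _ => sum_nonneg fun c _ => ic_nonneg _) (mem_range.2 hj)
      rw [ic_true hc] at e1
      linarith
    · rw [ic_false h]
      exact sum_nonneg fun j _ => sum_nonneg fun c _ => ic_nonneg _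
  calc ∑ l : (Fin n → Bool) → Bool, lw q l * ic (∃ j < J, ∃ c,
        ((Rx j c).filter fun x => l x = true).card < Q)
      ≤ ∑ l : (Fin n → Bool) → Bool, lw q l * ∑ j ∈ range J, ∑ c : Bool,
          ic (((Rx j c).filter fun x => l x = true).card < Q) :=
        sum_le_sum fun l _ => mul_le_mul_of_nonneg_left (hle l) (lw_nonneg h0 h1 l)
    _ = ∑ j ∈ range J, ∑ c : Bool, ∑ l : (Fin n → Bool) → Bool, lw q l *
          ic (((Rx j c).filter fun x => l x = true).card < Q) := by
        simp only [mul_sum]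
        rw [sum_comm]
        refine sum_congr rfl fun j _ => ?_
        rw [sum_comm]
    _ ≤ ∑ j ∈ range J, ∑ c : Bool, (Q * (1 - q) ^ G : ℝ) :=
        sum_le_sum fun j hj => sum_le_sum fun c _ =>
          hLVS (Fin n → Bool) q (Rx j c) Q G h0 h1 (hR j (mem_range.1 hj) c)
    _ = 2 * J * (Q * (1 - q) ^ G) := by
        simp only [sum_const, card_univ, Fintype.card_bool, card_range, nsmul_eq_mul]
        push_cast
        ring

/-- The value of the oracle at the strings of the table determines the special strings. -/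
theorem special_congr (hSPC : T_SPC) {k n Q : ℕ} (hQ : 2 ^ (k + 1) * n + 1 ≤ Q)
    {O O' : List Bool → Bool} (h : ∀ w : List Bool, w.length ≤ Q → O' w = O w) (u : List Bool)
    (hu : u.length = n) : Special k O' u ↔ Special k O u := by
  refine hSPC k _ _ u fun w hw => h _ ?_
  rw [List.length_cons, hw, hu]
  have : (2 ^ (k + 1) - 1) * n ≤ 2 ^ (k + 1) * n := Nat.mul_le_mul_right _ (Nat.sub_le _ _)
  omega

theorem sgp (hCON : T_CON) (hHTC : T_HTC) (hLVS : T_LVS) (hBKS : T_BKS) (hLSP : T_LSP)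
    (hPRP : T_PRP) (hFOL : T_FOL) (h4 : T_BLG) (h5 : T_BUG) (h7 : T_CLH) (hNST : T_NST)
    (h8 : T_COD) (h9 : T_LKG) (h10 : T_FMG) (hLAK : T_LAK) (h12 : T_FIS) (h13 : T_NUM)
    (h16 : T_EXG) (h17 : T_MEG) (hNDV : T_NDV) (hSPC : T_SPC) (hEVC : T_EVC)
    (hLWS : T_LWS) : T_SGP := by
  classical
  intro k C prog hs
  have hA : LocA (acck (k + 1) prog) := hLAK (k + 1) prog hs
  filter_upwards [hPRP k C] with n hn R hR σ₀ hσ
  obtain ⟨a, t, w, S', J, p, G, L, B, hP⟩ := hn
  set M : ℕ := C * 2 ^ (n / 16) + 1 with hM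
  have hn2 : 2 ≤ n := by have := hP.n2; omega
  have hRm : R.m ≤ M := hR.1.trans (by omega)
  have hRd : ∀ r, (R.tree r).depth ≤ M := fun r => (hR.2 r).1.trans (by omega)
  have hRs : ∀ r, (R.tree r).Short M := fun r => short_mono (by omega) _ (hR.2 r).2
  have : Finite (Om n (2 ^ a)) := h12.2.1 n (2 ^ a)
  let inst : Fintype (Om n (2 ^ a)) := Fintype.ofFinite _
  obtain ⟨hcard, -⟩ := h12.2.2 n (2 ^ a)
  obtain ⟨O₀, h0⟩ := h4 _ hA σ₀
  obtain ⟨D, hSys, hD⟩ := h10 (k + 1) prog n a t O₀ hs hn2 hP.ta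
  obtain ⟨Rx, hRx⟩ := hBKS n p J hP.pn hP.Jp
  obtain ⟨hdis, htop⟩ := hLSP.2 n J _ Rx hRx
  have hw1 : 1 ≤ w := by
    have h1 := hP.M1
    have h2 := hP.Mt
    have h3 := hP.tw
    omega
  have hw0 : (0 : ℝ) < w := by exact_mod_cast hw1
  have hq0 : (0 : ℝ) ≤ 1 / (64 * (w : ℝ)) := by positivity
  have hq1 : 1 / (64 * (w : ℝ)) ≤ 1 := by
    rw [div_le_one (by positivity)]
    have : (1 : ℝ) ≤ w := by exact_mod_cast hw1
    linarith
  have : Nonempty (Hid (Fin n → Bool) (Ys n) (k + 1)) := hid_nonempty (k + 1)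
  have hcH : (0 : ℝ) < Fintype.card (Hid (Fin n → Bool) (Ys n) (k + 1)) := by
    exact_mod_cast Fintype.card_pos
  have hM2 : (2 : ℝ) ^ R.m ≤ 2 ^ M := pow_le_pow_right₀ (by norm_num) hRm
  have hcρ : (Fintype.card (Fin R.m → Bool) : ℝ) = 2 ^ R.m := by simp
  have hpos2 : (0 : ℝ) < 2 ^ R.m := by positivity
  -- the functions of the algorithm
  let f : (Fin R.m → Bool) → (Cg (k + 1) n (2 ^ a) → Bool) → Bool := fun r y =>
    (cvt (clg (k + 1) n (2 ^ a) O₀) (R.tree r)).eval y
  have hf : ∀ r, Fm (2 ^ t) t (k + 1) (f r) := fun r =>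
    fm_up Nat.one_le_two_pow (k + 1) ⟨cvt (clg (k + 1) n (2 ^ a) O₀) (R.tree r), by
      rw [cvt_depth]; exact (hRd r).trans hP.Mt, fun y => rfl⟩
  have hβ0 : 0 ≤ errT (Fin n → Bool) (Ys n) (2 ^ t) w (2 ^ n) (1 / (64 * (w : ℝ))) k := by
    unfold errT
    have : 0 ≤ 1 - 1 / (64 * (w : ℝ)) := by linarith
    have h1 := pow_nonneg this (2 ^ n)
    refine add_nonneg (by positivity) (sum_nonneg fun i _ => ?_)
    positivity
  have hsum1 : ∑ q : Hid (Fin n → Bool) (Ys n) (k + 1) × ((Fin n → Bool) → Bool),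
      lw (1 / (64 * (w : ℝ))) q.2 / Fintype.card (Hid (Fin n → Bool) (Ys n) (k + 1)) = 1 := by
    rw [Fintype.sum_prod_type]
    simp only [← sum_div]
    rw [hLWS]
    simp only [sum_const, card_univ, nsmul_eq_mul]
    field_simp
  obtain ⟨hη0, hη⟩ := eta_sum (a := a) h12 h13 hP.n2 hP.Bn
  have hLM := hP.LM
  -- the existence of a configuration for which the algorithm errs
  obtain ⟨q, b, κ, P, hDec, hbad⟩ := hCON
    (Hid (Fin n → Bool) (Ys n) (k + 1) × ((Fin n → Bool) → Bool)) (Fin n → Bool)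
    (Nn n (k + 1)) (Om n (2 ^ a)) (Fin R.m → Bool) (fun s => ns s.1) (fun s => qs s.1) D f
    (fun s => lv n s.1) (2 ^ t) t (k + 1) a S' w L J B
    (errT (Fin n → Bool) (Ys n) (2 ^ t) w (2 ^ n) (1 / (64 * (w : ℝ))) k)
    (fun q => lw (1 / (64 * (w : ℝ))) q.2 / Fintype.card (Hid (Fin n → Bool) (Ys n) (k + 1)))
    (fun q => q.2) (fun q b => sv b (k + 1) q.1) Rx (LstB n)
    hSys hf (fun q => div_nonneg (lw_nonneg hq0 hq1 _) hcH.le) hsum1 hβ0
    (hHTC n k (2 ^ t) t w hw1 hP.tw) Nat.one_le_two_pow hP.S2 hP.St hP.St (by omega) hP.SL hP.B1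
    (fun s => by simp only [qs]; omega)
    (fun s => by
      have e1 := (h13 s.1).2
      have e2 : (1 / 4 : ℝ) ^ s.1.length ≤ (1 / 4) ^ 1 := by
        refine pow_le_pow_of_le_one (by norm_num) (by norm_num) ?_
        have h1 := s.2.1
        have h2 : 1 ≤ n ^ 2 := Nat.one_le_pow _ _ (by omega)
        omega
      unfold er
      linarith)
    (hFOL k M n a t w S' J p G L B hP)
    (by
      rw [hcρ]
      have e1 : (∑ s : Om n (2 ^ a), etaB B (qs s.1) (ns s.1)) ^ L ≤ (1 / 4) ^ L :=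
        pow_le_pow_left₀ hη0 hη L
      have e2 : (1 / 4 : ℝ) ^ L * (7 * 2 ^ M) ≤ 1 / 4 := by
        rw [hLM, pow_add]
        have e3 : (1 / 4 : ℝ) ^ M * 2 ^ M ≤ 1 := by
          rw [← mul_pow]
          exact pow_le_one₀ (by norm_num) (by norm_num)
        nlinarith
      refine le_trans (mul_le_mul e1 (mul_le_mul_of_nonneg_left hM2 (by norm_num))
        (by positivity) (by positivity)) e2)
    (by
      rw [hcρ]
      refine le_trans (mul_le_mul_of_nonneg_right ?_ hβ0) hP.er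
      have e1 : (2 * ((Fintype.card (Om n (2 ^ a)) : ℝ) + 1)) ^ L ≤
          (2 * ((2 : ℝ) ^ n ^ 2 ^ a + 1)) ^ L := by
        refine pow_le_pow_left₀ (by positivity) ?_ L
        have : (Fintype.card (Om n (2 ^ a)) : ℝ) ≤ 2 ^ n ^ 2 ^ a := by exact_mod_cast hcard
        linarith
      refine mul_le_mul (mul_le_mul e1 (by linarith) (by positivity) (by positivity))
        (by linarith) (by positivity) (by positivity))
    (by
      rw [hcρ]
      have e1 : (2 : ℝ) ^ (M + 4) ≤ 2 ^ J := pow_le_pow_right₀ (by norm_num) hP.JM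
      rw [pow_add] at e1
      have e2 : (0 : ℝ) < 2 ^ M := by positivity
      linarith)
    (by have := hP.JM; omega) hdis
    (by
      have e1 : ∀ q : Hid (Fin n → Bool) (Ys n) (k + 1) × ((Fin n → Bool) → Bool),
          lw (1 / (64 * (w : ℝ))) q.2 / Fintype.card (Hid (Fin n → Bool) (Ys n) (k + 1)) *
            ic (∃ j < J, ∃ c, ((Rx j c).filter fun x => q.2 x = true).card <
              100 * (L * w) ^ 2 + 1) =
          (lw (1 / (64 * (w : ℝ))) q.2 * ic (∃ j < J, ∃ c,
            ((Rx j c).filter fun x => q.2 x = true).card < 100 * (L * w) ^ 2 + 1)) /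
            Fintype.card (Hid (Fin n → Bool) (Ys n) (k + 1)) := fun q => by ring
      rw [sum_congr rfl fun q _ => e1 q, ← sum_div, Fintype.sum_prod_type]
      simp only [sum_const, card_univ, nsmul_eq_mul]
      rw [mul_div_assoc, mul_comm, div_mul_cancel₀ _ hcH.ne']
      refine (live_bound hLVS hq0 hq1 fun j hj c => hP.GR.trans (hRx.card j hj c)).trans ?_
      have := hP.GQ
      push_cast at this ⊢
      exact this)
    htop
  -- the oracle
  set T : Nn n (k + 1) → Bool := sv b (k + 1) q.1 with hT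
  obtain ⟨O, hO⟩ := h4 _ hA (sdg (k + 1) n (2 ^ a) σ₀ T κ P)
  have hLvl := (h17 (Nn n (k + 1)) (Om n (2 ^ a)) (fun s => ns s.1)
    (fun s => qs s.1) D (fun s => lv n s.1) (2 ^ t) t (k + 1) a hSys P).1
  obtain ⟨-, hun, -, -⟩ := h16 (Nn n (k + 1)) (Om n (2 ^ a)) (accG D P)
    (fun s => lv n s.1) a hLvl
  have e1 : (fun s : Om n (2 ^ a) => O (key s.1)) = elG (accG D P) T κ a :=
    hun T κ _ (fixed h7 h9 hA hn2 h0 hO hD)
  have hval : ∀ w : List Bool, w.length ≤ n ^ 2 ^ a →
      O w = vlG T (elG (accG D P) T κ a) P (clg (k + 1) n (2 ^ a) O₀ w) := by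
    intro w hw
    rw [← e1]
    exact h9 (k + 1) _ n (2 ^ a) σ₀ O₀ O T κ P hA hn2 h0 hO w hw
  have hsp : ∀ x : Fin n → Bool, Special (k + 1) O (List.ofFn x) ↔ b x = false := by
    refine hNDV (k + 1) n O b q.1 fun v => ?_
    rw [bld_base hO]
    unfold sdg
    rw [(h7 (k + 1) n (2 ^ a) σ₀).1 v]
    rfl
  refine ⟨sdg (k + 1) n (2 ^ a) σ₀ T κ P, n ^ 2 ^ a, fun w hw => short_eq h7 hNST h8 hn2 w hw,
    dec_all h7 h8 hσ hDec, other_sd h7 hNST hSPC _, fun σ' O' he hB hcor => hbad ?_⟩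
  have hOO : ∀ w : List Bool, w.length ≤ n ^ 2 ^ a → O' w = O w :=
    h5 _ σ' _ O' O (n ^ 2 ^ a) hA hB hO he
  have hev : ∀ r, (R.tree r).eval O' = f r (vlG T (elG (accG D P) T κ a) P) := by
    intro r
    change _ = (cvt _ (R.tree r)).eval _
    rw [cvt_eval]
    exact hEVC _ M _ _ (hRs r) fun w hw => by
      rw [hOO w (hw.trans hP.Ma)]
      exact hval w (hw.trans hP.Ma)
  have hacc : R.Acc O' ↔ Fintype.card (Fin R.m → Bool) < 2 * (univ.filter fun r =>
      f r (vlG T (elG (accG D P) T κ a) P) = true).card := by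
    unfold PAlg.Acc
    have e2 : (univ.filter fun r : Fin R.m → Bool => (R.tree r).eval O' = true) =
        univ.filter fun r => f r (vlG T (elG (accG D P) T κ a) P) = true :=
      filter_congr fun r _ => by rw [hev r]
    rw [e2]
    simp
  have hlast : List.replicate n false ∈ lastlang (k + 1) O' ↔ LstB n b := by
    refine hLSP.1 (k + 1) n O' b fun x => ?_
    rw [← hsp x]
    exact special_congr hSPC hP.na hOO _ (by simp)
  rw [← hlast, ← hcor]
  exact hacc.symm

end Pool.Agent.H70.PW.SGP
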