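import Pool.Agent.H12.PW.LDC
import Pool.Agent.H12.PW.MKV
import Pool.Agent.H17.PW.CLX
import Pool.Agent.H17.PW.REM
import Pool.Agent.H17.PW.TBE
import Pool.Agent.H18.PW.BSR
import Pool.Agent.H18.PW.TAP
import Pool.Agent.H19.PW.CAP
import Pool.Agent.H19.PW.LVS
import Pool.Agent.H19.PW.MXB
import Pool.Agent.H2.PW.CPI
import Pool.Agent.H2.PW.NUC
import Pool.Agent.H31.PW.CHN
import Pool.Agent.H31.PW.STP
import Pool.Agent.H33.PW.FOL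
import Pool.Agent.H48.PW.DTK
import Pool.Agent.H48.PW.LSP
import Pool.Agent.H54.PW.LIM
import Pool.Agent.H58.PW.ERX
import Pool.Agent.H58.PW.EXQ
import Pool.Agent.H58.PW.TBD
import Pool.Agent.H62.PW.GLM
import Pool.Agent.H62.PW.HTC
import Pool.Agent.H62.PW.LTR
import Pool.Agent.H65.PW.L1K
import Pool.Agent.H65.PW.SYP
import Pool.Agent.H69.PW.BKS
import Pool.Agent.H69.PW.GRW
import Pool.Agent.H69.PW.LDT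
import Pool.Agent.H70.OQ.All
import Pool.Agent.H70.PW.SGA
import Pool.Agent.H70.PW.SGP
import Pool.Agent.H70.PW.Targets
import Pool.Agent.H74.PW.AVG
import Pool.Agent.H74.PW.SIN
import Pool.Agent.H74.PW.TEN
import Pool.Agent.H87.PW.CONF
import Pool.Agent.H87.PW.PRP
import Pool.Agent.H89.PW.APP

/-!
# Assembly of the modules
-/

set_option autoImplicit false

namespace Pool.Agent.H70.PW

theorem pf_CPI : T_CPI :=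
  Pool.Agent.H2.PW.cpi

theorem pf_CAP : T_CAP :=
  Pool.Agent.H19.PW.CAP.cap pf_CPI Pool.Agent.H6.NB.pf_HYB

theorem pf_TEN : T_TEN :=
  Pool.Agent.H74.PW.TEN.ten

theorem pf_NUC : T_NUC :=
  Pool.Agent.H2.PW.nuc_ Pool.Agent.H6.NB.pf_DCP Pool.Agent.H6.NB.pf_MUP

theorem pf_SIN : T_SIN :=
  Pool.Agent.H74.PW.SIN.sin_ pf_NUC Pool.Agent.H6.NB.pf_DIF Pool.Agent.H6.NB.pf_CPY Pool.Agent.H6.NB.pf_MUP

theorem pf_TAP : T_TAP :=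
  Pool.Agent.H18.PW.TAP.tap

theorem pf_MXB : T_MXB :=
  Pool.Agent.H19.PW.MXB.mxb pf_TEN pf_SIN pf_TAP

theorem pf_CLX : T_CLX :=
  Pool.Agent.H17.PW.CLX.clx Pool.Agent.H70.OQ.pf_CLG Pool.Agent.H6.NB.pf_CLB

theorem pf_REM : T_REM :=
  Pool.Agent.H17.PW.REM.rem_ pf_MXB pf_CLX

theorem pf_EXQ : T_EXQ :=
  Pool.Agent.H58.PW.EXQ.exq pf_CAP pf_REM pf_NUC

theorem pf_LDC : T_LDC :=
  Pool.Agent.H12.PW.LDC.ldc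

theorem pf_LDT : T_LDT :=
  Pool.Agent.H69.PW.LDT.ldt pf_LDC

theorem pf_APP : T_APP :=
  Pool.Agent.H89.PW.APP.app_ pf_LDC pf_LDT

theorem pf_AVG : T_AVG :=
  Pool.Agent.H74.PW.AVG.avg pf_NUC Pool.Agent.H70.OQ.pf_FMS

theorem pf_MKV : T_MKV :=
  Pool.Agent.H12.PW.MKV.mkv

theorem pf_GRW : T_GRW :=
  Pool.Agent.H69.PW.GRW.grw pf_MKV

theorem pf_SYP : T_SYP :=
  Pool.Agent.H65.PW.SYP.syp

theorem pf_STP : T_STP :=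
  Pool.Agent.H31.PW.STP.stp_ pf_GRW pf_SYP

theorem pf_CHN : T_CHN :=
  Pool.Agent.H31.PW.CHN.chn pf_STP pf_LDC

theorem pf_CON : T_CON :=
  Pool.Agent.H87.PW.CONF.con pf_EXQ pf_APP pf_AVG pf_CHN pf_NUC Pool.Agent.H70.OQ.pf_CHG Pool.Agent.H70.OQ.pf_MEG

theorem pf_TBD : T_TBD :=
  Pool.Agent.H58.PW.TBD.tbd Pool.Agent.H70.OQ.pf_RED Pool.Agent.H70.OQ.pf_SYM Pool.Agent.H70.OQ.pf_LIV Pool.Agent.H70.OQ.pf_UWS Pool.Agent.H70.OQ.pf_LWS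

theorem pf_TBE : T_TBE :=
  Pool.Agent.H17.PW.TBE.tbe pf_TBD Pool.Agent.H70.OQ.pf_FMM

theorem pf_HTC : T_HTC :=
  Pool.Agent.H62.PW.HTC.htc pf_TBE

theorem pf_LVS : T_LVS :=
  Pool.Agent.H19.PW.LVS.lvs Pool.Agent.H70.OQ.pf_LWS

theorem pf_LTR : T_LTR :=
  Pool.Agent.H62.PW.LTR.ltr

theorem pf_BKS : T_BKS :=
  Pool.Agent.H69.PW.BKS.bks pf_LTR

theorem pf_LSP : T_LSP :=
  Pool.Agent.H48.PW.LSP.lsp pf_LTR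

theorem pf_ERX : T_ERX :=
  Pool.Agent.H58.PW.ERX.erx

theorem pf_PRP : T_PRP :=
  Pool.Agent.H87.PW.PRP.prp pf_ERX

theorem pf_DTK : T_DTK :=
  Pool.Agent.H48.PW.DTK.dtk

theorem pf_L1K : T_L1K :=
  Pool.Agent.H65.PW.L1K.l1k_ pf_DTK Pool.Agent.H6.NB.pf_CKT Pool.Agent.H6.NB.pf_HTR

theorem pf_FOL : T_FOL :=
  Pool.Agent.H33.PW.FOL.fol pf_L1K

theorem pf_SGP : T_SGP :=
  Pool.Agent.H70.PW.SGP.sgp pf_CON pf_HTC pf_LVS pf_BKS pf_LSP pf_PRP pf_FOL Pool.Agent.H70.OQ.pf_BLG Pool.Agent.H70.OQ.pf_BUG Pool.Agent.H70.OQ.pf_CLH Pool.Agent.H70.OQ.pf_NST Pool.Agent.H6.NB.pf_COD Pool.Agent.H70.OQ.pf_LKG Pool.Agent.H70.OQ.pf_FMG Pool.Agent.H70.OQ.pf_LAK Pool.Agent.H6.NB.pf_FIS Pool.Agent.H6.NB.pf_NUM Pool.Agent.H70.OQ.pf_EXG Pool.Agent.H70.OQ.pf_MEG Pool.Agent.H70.OQ.pf_NDV Pool.Agent.H70.OQ.pf_SPC Pool.Agent.H6.NB.pf_EVC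 Pool.Agent.H70.OQ.pf_LWS

theorem pf_SGA : T_SGA :=
  Pool.Agent.H70.PW.SGA.sga Pool.Agent.H70.OQ.pf_EXJ Pool.Agent.H70.OQ.pf_TBL Pool.Agent.H6.NB.pf_BBV Pool.Agent.H6.NB.pf_PCG Pool.Agent.H70.OQ.pf_BLG Pool.Agent.H70.OQ.pf_BUG Pool.Agent.H70.OQ.pf_CLH Pool.Agent.H70.OQ.pf_NST Pool.Agent.H6.NB.pf_COD Pool.Agent.H70.OQ.pf_LKG Pool.Agent.H70.OQ.pf_FMG Pool.Agent.H70.OQ.pf_LAK Pool.Agent.H6.NB.pf_FIS Pool.Agent.H6.NB.pf_NUM Pool.Agent.H70.OQ.pf_PRG Pool.Agent.H6.NB.pf_L12 Pool.Agent.H70.OQ.pf_EXG Pool.Agent.H70.OQ.pf_MEG Pool.Agent.H70.OQ.pf_NDV Pool.Agent.H70.OQ.pf_SPC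

theorem pf_LIM : T_LIM :=
  Pool.Agent.H54.PW.LIM.lim_ Pool.Agent.H70.OQ.pf_BLG

theorem pf_BSR : T_BSR :=
  Pool.Agent.H18.PW.BSR.bsr pf_LTR

theorem pf_GLM : T_GLM :=
  Pool.Agent.H62.PW.GLM.glm

end Pool.Agent.H70.PW
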