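import Pool.Agent.H70.PW.All

/-!
# Both separations relative to one oracle
-/

set_option autoImplicit false

namespace Pool.Agent.H70.PW.Comb

open Filter Pool.Agent.H6.NB Pool.Agent.H70.OQ Pool.Agent.H70.PW

/-- One oracle for both separations. -/
theorem comb (k : ℕ) (hk : 1 ≤ k) (V : ℕ → Machine k) (Q : ℕ → List Bool → QAlg)
    (R : ℕ → List Bool → PAlg)
    (hQ : ∀ j, ∃ (c C : ℕ) (ε : ℝ), 0 < ε ∧ ∀ x : List Bool, (Q j x).Short (x.length ^ c + c) ∧
      ((Q j x).T : ℝ) ≤ C * 2 ^ ((1 / 2 - ε) * x.length))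
    (hR : ∀ j, ∃ C : ℕ, ∀ x : List Bool, (R j x).Small (C * 2 ^ (x.length / 16))) :
    ∃ O : List Bool → Bool,
      (∀ i x, (x ∈ (V i).lang O → 2 / 3 ≤ yesProb O (inst (V i).c i x)) ∧
        (x ∉ (V i).lang O → yesProb O (inst (V i).c i x) ≤ 1 / 3)) ∧
      OneSpecialE k O ∧
      (∀ j m, ∃ n ≥ m, Even n ∧
        ¬ Correct (Q j (List.replicate n false)) O (hlang k O) (List.replicate n false)) ∧
      ∀ j m, ∃ n ≥ m, ¬ ((R j (List.replicate n false)).Acc O ↔
        List.replicate n false ∈ lastlang k O) := by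
  obtain ⟨k, rfl⟩ : ∃ k', k = k' + 1 := ⟨k - 1, by omega⟩
  obtain ⟨prog, hs, hp⟩ := pf_UNG (k + 1) V
  have hA : LocA (acck (k + 1) prog) := pf_LAK (k + 1) prog hs
  obtain ⟨σ, O, hB, hZ, hE⟩ := pf_LIM (acck (k + 1) prog) (List Bool ⊕ ℕ)
    (fun z σ => match z with
      | .inl s => Dec σ s
      | .inr n => Even n → ∃! u : List Bool, u.length = n ∧ Special (k + 1) σ u)
    (fun i n O => if i % 2 = 0 then Even n ∧
        ¬ Correct (Q (i / 2) (List.replicate n false)) O (hlang (k + 1) O) (List.replicate n false)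
      else ¬ ((R (i / 2) (List.replicate n false)).Acc O ↔
        List.replicate n false ∈ lastlang (k + 1) O)) hA
    (by
      rintro (s | n)
      · obtain ⟨l, hl⟩ := Pool.Agent.H6.NB.pf_DCC s
        exact ⟨l, fun σ σ' h => (hl σ σ' h).1⟩
      · refine ⟨(2 ^ (k + 1 + 1) - 1) * n + 1, fun σ σ' h hσ hn => ?_⟩
        have h1 : ∀ u : List Bool, u.length = n →
            (Special (k + 1) σ' u ↔ Special (k + 1) σ u) := fun u hu =>
          (pf_SPC (k + 1) σ σ' u fun w hw => h _ (by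
            rw [List.length_cons, hw, hu])).symm
        obtain ⟨u, hu, hu2⟩ := hσ hn
        exact ⟨u, ⟨hu.1, (h1 u hu.1).2 hu.2⟩, fun v hv => hu2 v ⟨hv.1, (h1 v hv.1).1 hv.2⟩⟩)
    (by
      obtain ⟨σ, hσ, hσ2⟩ := pf_ING (k + 1)
      refine ⟨σ, ?_⟩
      rintro (s | n)
      · exact hσ s
      · exact fun _ => hσ2 n)
    (fun i => by
      by_cases hi : i % 2 = 0
      · simp only [hi, if_true]
        obtain ⟨c, C, ε, hε, hC⟩ := hQ (i / 2)
        have hev : ∃ᶠ n : ℕ in atTop, Even n :=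
          frequently_atTop.2 fun m => ⟨2 * m, by omega, even_two_mul m⟩
        refine (hev.and_eventually (pf_SGA k c C ε hε prog hs)).mono fun n ⟨hn, h⟩ σ₀ hσ => ?_
        obtain ⟨h0, h0'⟩ := hC (List.replicate n false)
        rw [List.length_replicate] at h0 h0'
        obtain ⟨σ, m, h1, h2, h3, h4, h5⟩ := h _ h0 h0' σ₀ fun s => hσ (.inl s)
        refine ⟨σ, m, h1, ?_, fun σ' O' e hB => ⟨hn, h5 σ' O' e hB⟩⟩
        rintro (s | n')
        · exact h2 s
        · intro hn'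
          by_cases hnn : n' = n
          · subst hnn
            exact h4
          · obtain ⟨u, hu, hu2⟩ := hσ (.inr n') hn'
            exact ⟨u, ⟨hu.1, (h3 u (by rw [hu.1]; exact hnn)).2 hu.2⟩, fun v hv =>
              hu2 v ⟨hv.1, (h3 v (by rw [hv.1]; exact hnn)).1 hv.2⟩⟩
      · simp only [hi, if_false]
        obtain ⟨C, hC⟩ := hR (i / 2)
        have hev : ∃ᶠ n : ℕ in atTop, ¬ Even n :=
          frequently_atTop.2 fun m => ⟨2 * m + 1, by omega, by simp⟩
        refine (hev.and_eventually (pf_SGP k C prog hs)).mono fun n ⟨hn, h⟩ σ₀ hσ => ?_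
        have h0 : (R (i / 2) (List.replicate n false)).Small (C * 2 ^ (n / 16)) := by
          simpa using hC (List.replicate n false)
        obtain ⟨σ, m, h1, h2, h3, h4⟩ := h _ h0 σ₀ fun s => hσ (.inl s)
        refine ⟨σ, m, h1, ?_, h4⟩
        rintro (s | n')
        · exact h2 s
        · intro hn'
          have hnn : n' ≠ n := fun e => hn (e ▸ hn')
          obtain ⟨u, hu, hu2⟩ := hσ (.inr n') hn'
          exact ⟨u, ⟨hu.1, (h3 u (by rw [hu.1]; exact hnn)).2 hu.2⟩, fun v hv =>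
            hu2 v ⟨hv.1, (h3 v (by rw [hv.1]; exact hnn)).1 hv.2⟩⟩)
  refine ⟨O, fun i x => ?_, ?_, fun j m => ?_, fun j m => ?_⟩
  · have h1 := pf_YEG (acck (k + 1) prog) σ O (inst (V i).c i x) hB (hZ (.inl _))
    exact ⟨fun hx => h1.1 ((hp i x O).1 hx), fun hx => h1.2 fun ha => hx ((hp i x O).2 ha)⟩
  · intro n hn
    obtain ⟨u, hu, hu2⟩ := hZ (.inr n) hn
    have h1 := fun u => Pool.Agent.H70.OQ.SGG.special_bld pf_SPC hB (k + 1) u
    exact ⟨u, ⟨hu.1, (h1 u).2 hu.2⟩, fun v hv => hu2 v ⟨hv.1, (h1 v).1 hv.2⟩⟩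
  · obtain ⟨n, hn, h⟩ := hE (2 * j) m
    have e1 : 2 * j % 2 = 0 := by omega
    have e2 : 2 * j / 2 = j := by omega
    simp only [e1, if_true, e2] at h
    exact ⟨n, hn, h⟩
  · obtain ⟨n, hn, h⟩ := hE (2 * j + 1) m
    have e1 : ¬ (2 * j + 1) % 2 = 0 := by omega
    have e2 : (2 * j + 1) / 2 = j := by omega
    simp only [e1, if_false, e2] at h
    exact ⟨n, hn, h⟩

end Pool.Agent.H70.PW.Comb
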