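import Pool.Agent.H70.OQ.Stmt

/-!
# For every k an oracle relative to which Σ_k is contained in BQP but Δ_(k+2) is not contained in PP

Definitions used in the statement. `Machine`, `Special` and the strings of the oracle are those of
`Pool.Agent.H70.OQ.Stmt`, the decision trees `DT` over an oracle those of `Pool.Agent.H6.NB.Stmt`.
-/

set_option autoImplicit false

namespace Pool.Agent.H70.PW

open Pool.Agent.H6.NB Pool.Agent.H70.OQ

/-- A probabilistic oracle algorithm with unbounded error for one input: it tosses `m` coins and then
makes adaptive queries to the oracle, described by the decision tree `tree r` if `r` is the result of the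
coin tosses. -/
structure PAlg where
  m : ℕ
  tree : (Fin m → Bool) → DT

/-- The algorithm tosses at most `M` coins and makes at most `M` queries of length at most `M`. -/
def PAlg.Small (R : PAlg) (M : ℕ) : Prop :=
  R.m ≤ M ∧ ∀ r, (R.tree r).depth ≤ M ∧ (R.tree r).Short M

/-- The algorithm accepts: more than half of the results of the coin tosses lead to acceptance. -/
def PAlg.Acc (R : PAlg) (O : List Bool → Bool) : Prop :=
  2 ^ R.m < 2 * (Finset.univ.filter fun r : Fin R.m → Bool => (R.tree r).eval O = true).card

/-- The string `v` comes after the string `u` in the lexicographic order: where they differ for the first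
time, `u` has the bit `0` and `v` has the bit `1`. -/
def Later (u v : List Bool) : Prop := ∃ a b c : List Bool, u = a ++ false :: b ∧ v = a ++ true :: c

/-- `x` is a member iff there are special strings of length `|x|` and the lexicographically last one ends
with `1`. -/
def lastlang (k : ℕ) (O : List Bool → Bool) : Set (List Bool) :=
  {x | ∃ u : List Bool, u.length = x.length ∧ Special k O u ∧ u.getLast? = some true ∧
    ∀ v : List Bool, v.length = x.length → Special k O v → ¬ Later u v}

/-- `y` is a member iff there is a special string of length `|y|` which is `y` or comes after `y`. -/
def geqlang (k : ℕ) (O : List Bool → Bool) : Set (List Bool) :=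
  {y | ∃ u : List Bool, u.length = y.length ∧ Special k O u ∧ ¬ Later u y}

/-- For every even `n` exactly one string of length `n` is special. -/
def OneSpecialE (k : ℕ) (O : List Bool → Bool) : Prop :=
  ∀ n : ℕ, Even n → ∃! u : List Bool, u.length = n ∧ Special k O u

end Pool.Agent.H70.PW
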