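import Pool.Agent.H70.OQ.Basic
import Pool.Agent.H70.PW.Stmt

/-!
# For every k an oracle with Σ_k in BQP and Δ_(k+2) not in PP: definitions for the proof
-/

set_option autoImplicit false

namespace Pool.Agent.H70.PW

open Finset Pool.Agent.H6.NB Pool.Agent.H70.OQ

/-! ## Part A: functions of low degree -/

/-- `g` is a polynomial of degree at most `D` in the indicator functions of `b x = false`. -/
def Lo {X : Type} [Fintype X] (D : ℕ) (g : (X → Bool) → ℝ) : Prop :=
  ∃ c : Finset X → ℝ, (∀ U, c U ≠ 0 → U.card ≤ D) ∧ ∀ b, g b = ∑ U, c U * ic (∀ x ∈ U, b x = false)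

/-- Add the special rows `I`. -/
def spc {X : Type} [DecidableEq X] (b0 : X → Bool) (I : Finset X) : X → Bool :=
  fun x => if x ∈ I then false else b0 x

/-- There is a special row in the class `(j, c)` and all other special rows are in this class or in
classes with a smaller first index. -/
def Tp {X : Type} (R : ℕ → Bool → Finset X) (j : ℕ) (c : Bool) (b : X → Bool) : Prop :=
  (∃ x ∈ R j c, b x = false) ∧ ∀ x, b x = false → x ∈ R j c ∨ ∃ j' < j, ∃ c', x ∈ R j' c'

/-! ## Part B: Fourier coefficients -/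

/-- The sum of the absolute values of the Fourier coefficients of order `k`. -/
noncomputable def L1k {V : Type} [Fintype V] [DecidableEq V] (k : ℕ) (F : (V → Bool) → ℝ) : ℝ :=
  ∑ U ∈ powersetCard k (univ : Finset V), |hat F U|

/-! ## Part C: the conditioned distributions -/

/-- The probability that the copies allow to read the key bit `b`. -/
noncomputable def nuz (b : Bool) (q N : ℕ) : ℝ :=
  ∑ P : Fin N → VV q → Bool, ic (DecA q N b P) * ∏ i, mu b q (P i)

/-- The distribution of the copies for the key bit `b`, conditioned on the event that the key bit can be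
read. -/
noncomputable def nuc (b : Bool) (q N : ℕ) (P : Fin N → VV q → Bool) : ℝ :=
  ic (DecA q N b P) * (∏ i, mu b q (P i)) / nuz b q N

/-- The error of the conditioning. -/
noncomputable def er (q N : ℕ) : ℝ := 3 * (N : ℝ) ^ 2 / 2 ^ q + (1 - eps2 q / 4) ^ N

/-- The bound for the distance of the two distributions of one instance. -/
noncomputable def etaB (B : ℝ) (q N : ℕ) : ℝ := N * ((B ^ 2 + 1) / √(2 ^ q)) + 4 * er q N

/-- The test functionals: evaluations and Fourier coefficients of order two of one copy. -/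
def Tau (q N : ℕ) (B : ℝ) (τ : (Fin N → VV q → Bool) → ℝ) : Prop :=
  ∃ (j : ℕ) (π : (VV q → Bool) → Fin N → VV q → Bool) (ε : Finset (VV q) → ℝ), (j = 0 ∨ j = 2) ∧
    (∀ i v, Cl (VV q) 0 0 fun y => π y i v) ∧ (∀ U, |ε U| ≤ 1) ∧
    ∀ P, τ P = ∑ y : VV q → Bool, (∑ U ∈ powersetCard j (univ : Finset (VV q)),
      ε U * ∏ u ∈ U, sg (y u)) / (B ^ j * 2 ^ Fintype.card (VV q)) * ic (π y = P)

/-- Replace the coordinates in `I`. -/
def mixG {Ω : Type} [DecidableEq Ω] {T : Ω → Type} (I : Finset Ω) (P : ∀ s, T s)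
    (P' : ∀ s : {s // s ∈ I}, T s.1) : ∀ s, T s := fun s => if h : s ∈ I then P' ⟨s, h⟩ else P s

/-! ## Part D: the expected gap -/

section

variable {W X B Ω ρ : Type} {nn qb : Ω → ℕ}

/-- Four times the difference of the number of the accepting functions and half of their number, minus
one: at least `1` if more than half of the functions accept, at most `-1` otherwise. -/
noncomputable def gap [Fintype ρ] (f : ρ → (PosG B Ω nn qb → Bool) → Bool)
    (y : PosG B Ω nn qb → Bool) : ℝ := 4 * (∑ r, bi (f r y)) - 2 * Fintype.card ρ - 1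

variable [Fintype Ω] [DecidableEq Ω] [Fintype ρ]

/-- The expected gap, if the encrypted answers are uniform and the blocks have the conditioned
distributions which belong to the keys. -/
noncomputable def REx (D : Ω → (PosG B Ω nn qb → Bool) → Bool)
    (f : ρ → (PosG B Ω nn qb → Bool) → Bool) (T : B → Bool) : ℝ :=
  (∑ e : Ω → Bool, ∑ P : Blk nn qb, (∏ s, nuc (thG (accG D P) T e s) (qb s) (nn s) (P s)) *
    gap f (vlG T e P)) / 2 ^ Fintype.card Ω

/-- The weight of the blocks in the term `I` of the expansion. -/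
noncomputable def wgt (I : Finset Ω) (P : Blk nn qb) : ℝ :=
  (∏ s ∈ I, (nuc true (qb s) (nn s) (P s) - nuc false (qb s) (nn s) (P s))) *
    ∏ s ∈ Iᶜ, nuc false (qb s) (nn s) (P s)

/-- The term `I` of the expansion. -/
noncomputable def trm (D : Ω → (PosG B Ω nn qb → Bool) → Bool)
    (f : ρ → (PosG B Ω nn qb → Bool) → Bool) (T : B → Bool) (I : Finset Ω) : ℝ :=
  (∑ e : Ω → Bool, ∑ P : Blk nn qb, wgt I P * ((∏ s ∈ I, bi (thG (accG D P) T e s)) *
    gap f (vlG T e P))) / 2 ^ Fintype.card Ω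

/-- The function `F` of the table is a decision tree of depth at most `w` in the live rows. -/
def Dx (w : ℕ) (lx : X → Bool) (Tb : (X → Bool) → B → Bool) (F : (B → Bool) → Bool) : Prop :=
  ∃ T : Pool.Agent.H68.AC.DT X, T.depth ≤ w ∧
    ∀ b : X → Bool, (∀ x, lx x = false → b x = true) → T.eval b = F (Tb b)

/-- The restriction fails for one of the functions of the term `I`. -/
def Bdf (w : ℕ) (lx : X → Bool) (Tb : (X → Bool) → B → Bool)
    (D : Ω → (PosG B Ω nn qb → Bool) → Bool) (f : ρ → (PosG B Ω nn qb → Bool) → Bool)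
    (I : Finset Ω) (e : Ω → Bool) (P : Blk nn qb) : Prop :=
  (∃ s ∈ I, ¬ Dx w lx Tb fun T => accG D P s T e) ∨ ∃ r, ¬ Dx w lx Tb fun T => f r (vlG T e P)

/-- The error of the approximation by a polynomial of low degree. -/
noncomputable def Er (w L : ℕ) (lx : X → Bool) (Tb : (X → Bool) → B → Bool)
    (D : Ω → (PosG B Ω nn qb → Bool) → Bool) (f : ρ → (PosG B Ω nn qb → Bool) → Bool) : ℝ :=
  ∑ I ∈ univ.filter (fun I : Finset Ω => I.card < L),
    (∑ e : Ω → Bool, ∑ P : Blk nn qb, |wgt I P| * ic (Bdf w lx Tb D f I e P)) /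
      2 ^ Fintype.card Ω * (3 * Fintype.card ρ)

end

/-- The table lemma: `p` is chosen at random with the weights `ω`. -/
def Tbh {W X B : Type} [Fintype W] (ω : W → ℝ) (lx : W → X → Bool) (Tb : W → (X → Bool) → B → Bool)
    (S t d w : ℕ) (β : ℝ) : Prop :=
  ∀ f : (B → Bool) → Bool, Fm S t d f → ∑ p, ω p * ic (¬ Dx w (lx p) (Tb p) f) ≤ β

/-- The bound for the Fourier coefficients of the functions of the class `Cl` in `L` copies. -/
def Fou {Ω : Type} (qb : Ω → ℕ) (S' d' L : ℕ) (B : ℝ) : Prop :=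
  ∀ (I : Finset Ω) (j : ℕ) (F : ((Σ s : {s // s ∈ I}, VV (qb s.1)) → Bool) → Bool) [DecidableEq Ω],
    I.card = L → j ≤ 2 * L → Cl (Σ s : {s // s ∈ I}, VV (qb s.1)) S' d' F →
    L1k j (fun y => bi (F y)) ≤ B ^ j

/-! ## Part E: the last special row -/

/-- The lexicographically last special row exists and ends with `1`. -/
def LstB (n : ℕ) (b : (Fin n → Bool) → Bool) : Prop :=
  ∃ x, b x = false ∧ (List.ofFn x).getLast? = some true ∧
    ∀ x', b x' = false → ¬ Later (List.ofFn x) (List.ofFn x')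

/-- The properties of the classes of rows. -/
structure Cls (n J Q : ℕ) (R : ℕ → Bool → Finset (Fin n → Bool)) : Prop where
  card : ∀ j < J, ∀ c, Q ≤ (R j c).card
  last : ∀ j < J, ∀ c, ∀ x ∈ R j c, (List.ofFn x).getLast? = some c
  late : ∀ j' < J, ∀ j < j', ∀ c c', ∀ x ∈ R j c, ∀ x' ∈ R j' c', Later (List.ofFn x) (List.ofFn x')

/-! ## Part F: the parameters of the stage -/

/-- The parameters of the stage `n` for the machines with `k + 1` quantifiers and for algorithms with the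
bound `M`. -/
structure Pst (k M n a t w S' J p G L : ℕ) (B : ℝ) : Prop where
  n2 : 3 ≤ n
  M1 : 1 ≤ M
  Ma : M ≤ n ^ 2 ^ a
  na : 2 ^ (k + 2) * n + 1 ≤ n ^ 2 ^ a
  ta : n ^ 2 ^ a ≤ t ^ 2
  Mt : M ≤ t
  tw : t ≤ w
  LM : L = M + 6
  JM : M + 4 ≤ J
  Jp : J ≤ 2 ^ p
  pn : p + 1 ≤ n
  GR : G * (100 * (L * w) ^ 2 + 1) ≤ 2 ^ (n - p - 1)
  GQ : (2 * J : ℝ) * ((100 * (L * w : ℝ) ^ 2 + 1) * (1 - 1 / (64 * w)) ^ G) ≤ 1 / 4
  S2 : 2 ≤ S'
  St : 2 ^ t ≤ S'
  SL : L + 1 ≤ S'
  B1 : 1 ≤ B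
  Bn : B ^ 2 + 1 ≤ 2 ^ n ^ 2
  BL : ∀ j, 1 ≤ j → j ≤ 2 * L → ∃ w' : ℕ, 1 ≤ w' ∧
    (128 * (w' : ℝ)) ^ (j * (k + 5)) * ((w' : ℝ) ^ j +
      ((L : ℝ) * (2 * 2 ^ (10 * n ^ 2 ^ a + 100))) ^ j * ((S' : ℝ) + 1) ^ (k + 5) / 2 ^ w') ≤ B ^ j
  er : (2 * ((2 : ℝ) ^ n ^ 2 ^ a + 1)) ^ L * ((L : ℝ) + 2 ^ M) * (3 * 2 ^ M) *
    errT (Fin n → Bool) (Ys n) (2 ^ t) w (2 ^ n) (1 / (64 * w)) k ≤ 1 / 16

end Pool.Agent.H70.PW
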